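import Pool.Agent.H24.GF.FB
import Pool.Agent.H24.GC.KitAdd

/-!
# JOB GF-4: constants up to automorphisms

`const_fdef`: the relation that the arc `v ()` is the image of the arc `(x, y)` under an automorphism of `H`. Variables
`b e` for all arcs `e = (u, v)` of `H` (the subtype `{e : V × V // H.Adj e.1 e.2}`, type `e`). Constraints: for all `u`, and
different neighbours `v, w` of `u`: `IsC H (u, v) (b (u, v))`, `IsC H (u, w) (b (u, w))`, `(b (u, w)).1 = (b (u, v)).1`,
`(b (u, w)).2 ≠ (b (u, v)).2` (`fb_oth`; if `v, w` are similar then `nbc H u v` has at least two elements); for all arcs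
`b (v, u) = (b (u, v)).swap` (`fb_rev`); `v () = b (x, y)` (`fb_eq`). `FDef.all` (over the finite type of the triples),
`FDef.comap`, `FDef.and`, `FDef.ex`. The identity satisfies the constraints, composed with an automorphism too.
Conversely let `b` satisfy the constraints. Let `f u = (b (u, v)).1` for some neighbour `v` of `u` (it does not depend on
`v`); `b (u, v) = (f u, f v)` by the reversal. `f` maps the neighbourhood of `u` injectively to the neighbourhood of
`f u`, and both have the same number of elements in every class (`nbc_ncard`; `f` preserves the classes: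
`IsC H (u, v) (b (u, v))`), so `f` is a cover from `H` to `H`, and `auto_of_cover` (file `Pool.Agent.H24.GC.KitAdd`).
(Every vertex has a neighbour: `hcon` and `hxy`.)
-/

namespace Pool.Agent.H24.GF

open Pool.Agent.H24.GC Pool.Agent.H24.GD Pool.Agent.H24.GE

variable {V : Type} {H : SimpleGraph V}

/-- the arcs of `H` -/
abbrev ConstME (H : SimpleGraph V) : Type := {a : V × V // H.Adj a.1 a.2}

theorem constM_lift [Finite V] {K : Kit H} {X : Type} {tX : X → V × V} {c c' : V × V}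
    {S : V × V → V × V → Prop} (h : FB K c c' S) (i j : X) (hi : tX i = c) (hj : tX j = c') :
    FDef K tX (fun v => IsC H c (v i) ∧ IsC H c' (v j) ∧ S (v i) (v j)) := by
  subst hi
  subst hj
  refine (FDef.comap (tX' := tX) h (fun b : Bool => if b then j else i) ?_).congr fun v => ?_
  · intro b
    cases b
    · exact ⟨sim_refl H _, sim_refl H _⟩
    · exact ⟨sim_refl H _, sim_refl H _⟩
  · exact Iff.rfl

theorem constM_nb {K : Kit H} {P : V → K.W} (hB : Base K P) (v : V) : ∃ w, H.Adj v w := by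
  obtain ⟨w, hw⟩ := hB.deg (P v)
  have h1 := (K.cov (P v)).mapsTo hw
  rw [hB.pi] at h1
  exact ⟨_, h1⟩

/-- a map with the local constraints is a cover -/
theorem constM_cover [Finite V] {g : V → V} (h1 : ∀ v w, H.Adj v w → H.Adj (g v) (g w))
    (h2 : ∀ v, Sim H (g v) v) (h3 : ∀ v w w', H.Adj v w → H.Adj v w' → w ≠ w' → g w ≠ g w') :
    IsCover H H g := by
  intro v
  refine ⟨fun w hw => h1 v w hw, fun w hw w' hw' hww => ?_, fun y hy => ?_⟩
  · by_contra hne
    exact h3 v w w' hw hw' hne hww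
  · have hinj : Set.InjOn g (nbc H v y) := by
      intro w hw w' hw' hww
      by_contra hne
      exact h3 v w w' hw.1 hw'.1 hne hww
    have hsub : g '' nbc H v y ⊆ nbc H (g v) y := by
      rintro _ ⟨w, hw, rfl⟩
      exact ⟨h1 v w hw.1, sim_trans (h2 w) hw.2⟩
    have hcard : (nbc H (g v) y).ncard ≤ (g '' nbc H v y).ncard := by
      rw [hinj.ncard_image, nbc_ncard (h2 v) (sim_refl H y)]
    have heq := Set.eq_of_subset_of_ncard_le hsub hcard (Set.toFinite _)
    have hy' : y ∈ nbc H (g v) y := ⟨hy, sim_refl H y⟩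
    rw [← heq] at hy'
    obtain ⟨w, hw, hwy⟩ := hy'
    exact ⟨w, hw.1, hwy⟩

theorem const_fdef [Finite V] {K : Kit H} {P : V → K.W} (hB : Base K P) (hm : Multi H)
    (hcon : H.Connected) {x y : V} (hxy : H.Adj x y) :
    FDef K (fun _ : Unit => (x, y)) (fun v => ∃ e : H ≃g H, v () = (e x, e y)) := by
  have hC1 : ∀ t : {t : ConstME H × ConstME H //
      t.1.1.1 = t.2.1.1 ∧ t.1.1.2 ≠ t.2.1.2},
      FDef K (Sum.elim (fun _ : Unit => (x, y))
        (fun a : ConstME H => a.1))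
        (fun v => IsC H t.1.1.1 (v (Sum.inr t.1.1)) ∧ IsC H t.1.2.1 (v (Sum.inr t.1.2)) ∧
          ((v (Sum.inr t.1.2)).1 = (v (Sum.inr t.1.1)).1 ∧
            (v (Sum.inr t.1.2)).2 ≠ (v (Sum.inr t.1.1)).2)) := by
    rintro ⟨⟨⟨⟨a1, a2⟩, ha⟩, ⟨⟨b1, b2⟩, hb⟩⟩, hab, hne⟩
    have hab' : a1 = b1 := hab
    subst hab'
    have hne' : a2 ≠ b2 := hne
    refine constM_lift (fb_oth hB hm ha hb ?_) (Sum.inr (⟨(a1, a2), ha⟩ : ConstME H))
      (Sum.inr (⟨(a1, b2), hb⟩ : ConstME H)) rfl rfl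
    by_cases hs : Sim H a2 b2
    · right
      have h2 : 1 < (nbc H a1 a2).ncard := by
        rw [Set.one_lt_ncard_iff (Set.toFinite _)]
        exact ⟨a2, b2, ⟨ha, sim_refl H _⟩, ⟨hb, sim_symm hs⟩, hne'⟩
      exact h2
    · exact Or.inl hs
  have hC2 : ∀ a : ConstME H,
      FDef K (Sum.elim (fun _ : Unit => (x, y))
        (fun a : ConstME H => a.1))
        (fun v => IsC H a.1 (v (Sum.inr a)) ∧
          IsC H a.1.swap (v (Sum.inr ⟨a.1.swap, a.2.symm⟩)) ∧
          v (Sum.inr ⟨a.1.swap, a.2.symm⟩) = (v (Sum.inr a)).swap) := by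
    intro a
    exact constM_lift (fb_rev hB hm a.2) (Sum.inr a)
      (Sum.inr (⟨a.1.swap, a.2.symm⟩ : ConstME H)) rfl rfl
  have hC3 : FDef K (Sum.elim (fun _ : Unit => (x, y))
      (fun a : ConstME H => a.1))
      (fun v => IsC H (x, y) (v (Sum.inl ())) ∧ IsC H (x, y) (v (Sum.inr ⟨(x, y), hxy⟩)) ∧
        v (Sum.inl ()) = v (Sum.inr ⟨(x, y), hxy⟩)) :=
    constM_lift (fb_eq hB hm (c := (x, y)) hxy) (Sum.inl ())
      (Sum.inr (⟨(x, y), hxy⟩ : ConstME H)) rfl rfl
  refine (((FDef.all hC1).and ((FDef.all hC2).and hC3)).ex).congr fun v => ?_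
  constructor
  · rintro ⟨u, hu1, hu2, hu3⟩
    simp only [Sum.elim_inl, Sum.elim_inr] at hu1 hu2 hu3
    choose nb hnb using fun z : V => constM_nb hB z
    have key1 : ∀ a b (h : H.Adj a b), (u ⟨(a, b), h⟩).1 = (u ⟨(a, nb a), hnb a⟩).1 := by
      intro a b h
      by_cases hne : nb a = b
      · subst hne
        rfl
      · exact (hu1 ⟨(⟨(a, nb a), hnb a⟩, ⟨(a, b), h⟩), rfl, hne⟩).2.2.1
    have key2 : ∀ a b (h : H.Adj a b),
        u ⟨(a, b), h⟩ = ((u ⟨(a, nb a), hnb a⟩).1, (u ⟨(b, nb b), hnb b⟩).1) := by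
      intro a b h
      have h2 : u ⟨(b, a), h.symm⟩ = (u ⟨(a, b), h⟩).swap := (hu2 ⟨(a, b), h⟩).2.2
      have h3 : (u ⟨(a, b), h⟩).2 = (u ⟨(b, a), h.symm⟩).1 := by
        rw [h2]
        rfl
      refine Prod.ext (key1 a b h) ?_
      rw [h3]
      exact key1 b a h.symm
    have hg : IsCover H H (fun a => (u ⟨(a, nb a), hnb a⟩).1) := by
      refine constM_cover (fun a b h => ?_) (fun a => ?_) (fun a b b' h h' hne heq => ?_)
      · have h2 : H.Adj (u ⟨(a, b), h⟩).1 (u ⟨(a, b), h⟩).2 := (hu2 ⟨(a, b), h⟩).1.1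
        rw [key2 a b h] at h2
        exact h2
      · exact (hu2 ⟨(a, nb a), hnb a⟩).1.2.1
      · have h2 : (u ⟨(a, b'), h'⟩).2 ≠ (u ⟨(a, b), h⟩).2 :=
          (hu1 ⟨(⟨(a, b), h⟩, ⟨(a, b'), h'⟩), rfl, hne⟩).2.2.2
        rw [key2 a b h, key2 a b' h'] at h2
        exact h2 heq.symm
    obtain ⟨e, he⟩ := auto_of_cover hcon hg
    refine ⟨e, ?_⟩
    rw [hu3.2.2, key2 x y hxy, he, he]
  · rintro ⟨e, he⟩
    have hI : ∀ a b, H.Adj a b → IsC H (a, b) (e a, e b) := fun a b h =>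
      ⟨e.map_adj_iff.2 h, iso_sim e a, iso_sim e b⟩
    refine ⟨fun a => (e a.1.1, e a.1.2), ?_, ?_, ?_⟩
    · rintro ⟨⟨⟨⟨a1, a2⟩, ha⟩, ⟨⟨b1, b2⟩, hb⟩⟩, hab, hne⟩
      have hab' : a1 = b1 := hab
      subst hab'
      have hne' : a2 ≠ b2 := hne
      exact ⟨hI _ _ ha, hI _ _ hb, rfl, fun h => hne' (e.injective h).symm⟩
    · rintro ⟨⟨a1, a2⟩, ha⟩
      exact ⟨hI _ _ ha, hI _ _ ha.symm, rfl⟩
    · refine ⟨?_, hI _ _ hxy, ?_⟩
      · show IsC H (x, y) (v ())
        rw [he]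
        exact hI _ _ hxy
      · exact he

end Pool.Agent.H24.GF
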