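import Pool.Agent.H24.GF.RingM
import Pool.Agent.H24.GF.ConstM
import Pool.Agent.H24.GC.DihB
import Pool.Agent.H24.GE.BaseM

/-!
# JOB GF-6: two neighbours in one class with different neighbourhoods (graphs with bridges)

`case_B'`: as `case_B` (file `Pool.Agent.H24.GC.CaseB`, read it first) with `ring_hard'`. Let `K, P` be from `base_multi`, `c = (x₀, y₀)`,
`D` from `exists_dihB` (arcs of the type `c`; `i₁` the other arc with the same tail, `i₂` the other arc with the same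
head), `a₀ = (x₀, y₀)`, `n = D.per a₀ ≥ 3` (`dihB_per`). `S = lk H x₀ y₀` (file `Pool.Agent.H24.GC.StepDef`): `FTl K c S`: `a.1`, `b.1`
have a common neighbour in the class of `y₀`: there are arcs `(a.1, y)`, `(b.1, y)` of the type `c`: `fb_tail` for
`y = z = y₀` from `a` to `(a.1, y)`, `fb_rev`, `fb_tail` (type `(y₀, x₀)`), `fb_rev`, `fb_tail` to `b` (`FB.comp`, `FB.congr`).
`hstep`: `dihB_step`. `F x x'`: there is an arc `a` of the type `c` with `x = a.1`, `x' = (τ ^ L a).1`, `L = n / 2`: the relation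
`b = τ ^ L a` between arcs is definable by induction on `L`: `b = i₁ a` is `fb_oth` for `(x₀, y₀)`, `(x₀, y₀)` (`h`:
`nbc H x₀ y₀` has two elements, so the other arc is unique, `dihB_unique`), `b = i₂ a` is the composition of `fb_rev`,
`fb_oth` for `(y₀, x₀)`, `(y₀, x₀)` and `fb_rev`; `L = 0` is `fb_eq`. Then compose with `ftl_eq` on both sides. `hF1`: `a` or
`i₁ a` (as in `case_B`, `D.tau_i₁`). `Cn x`: `x` is the image of `x₀` under an automorphism: from `const_fdef`; `hC1`: `dihB_iso`.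
-/

namespace Pool.Agent.H24.GF

open Pool.Agent.H24.GC Pool.Agent.H24.GD Pool.Agent.H24.GE

variable {V : Type} {H : SimpleGraph V}

theorem caseBM_swap {x y : V} {b : V × V} (h : IsC H (x, y) b) : IsC H (y, x) b.swap :=
  ⟨h.1.symm, h.2.2, h.2.1⟩

/-- relations of the reversed arcs -/
theorem caseBM_rev [Finite V] {K : Kit H} {P : V → K.W} (hB : Base K P) (hm : Multi H) {x y : V}
    (hxy : H.Adj x y) {S : V × V → V × V → Prop} (h : FB K (y, x) (y, x) S) :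
    FB K (x, y) (x, y) (fun a b => S a.swap b.swap) := by
  have r1 : FB K (x, y) (y, x) (fun a b => b = a.swap) := fb_rev hB hm (c := (x, y)) hxy
  have r2 : FB K (y, x) (x, y) (fun a b => b = a.swap) := fb_rev hB hm (c := (y, x)) hxy.symm
  refine ((r1.comp h).comp r2).congr fun a b ha hb => ?_
  constructor
  · rintro ⟨e', -, ⟨e, -, h1, h2⟩, h3⟩
    rw [h3, Prod.swap_swap, ← h1]
    exact h2
  · intro h2
    exact ⟨b.swap, caseBM_swap hb, ⟨a.swap, caseBM_swap ha, rfl, h2⟩, (Prod.swap_swap b).symm⟩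

/-- powers of the rotation are definable -/
theorem caseBM_pow [Finite V] {K : Kit H} {P : V → K.W} (hB : Base K P) (hm : Multi H) {x₀ y₀ : V}
    (hxy : H.Adj x₀ y₀) (h : (nbc H x₀ y₀).ncard = 2) (h' : (nbc H y₀ x₀).ncard = 2)
    {D : Dih {a : V × V // IsC H (x₀, y₀) a} V} (hD : IsDihB H x₀ y₀ D) (L : ℕ) :
    FB K (x₀, y₀) (x₀, y₀)
      (fun a b => ∃ ha : IsC H (x₀, y₀) a, ((D.tau ^ (L : ℤ)) ⟨a, ha⟩).1 = b) := by
  have E1 : FB K (x₀, y₀) (x₀, y₀) (fun a b => b.1 = a.1 ∧ b.2 ≠ a.2) :=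
    fb_oth hB hm hxy hxy (Or.inr h.ge)
  have E2 : FB K (x₀, y₀) (x₀, y₀)
      (fun a b => b.swap.1 = a.swap.1 ∧ b.swap.2 ≠ a.swap.2) :=
    caseBM_rev hB hm hxy (fb_oth hB hm hxy.symm hxy.symm (Or.inr h'.ge))
  induction L with
  | zero =>
    refine (fb_eq hB hm (c := (x₀, y₀)) hxy).congr fun a b ha hb => ?_
    constructor
    · intro h1
      exact ⟨ha, by simpa using h1⟩
    · rintro ⟨ha', h1⟩
      simpa using h1
  | succ L ih =>
    have key : ∀ s : {a : V × V // IsC H (x₀, y₀) a},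
        (D.tau ^ ((L + 1 : ℕ) : ℤ)) s = D.i₁ (D.i₂ ((D.tau ^ (L : ℤ)) s)) := by
      intro s
      have : ((L + 1 : ℕ) : ℤ) = 1 + (L : ℤ) := by push_cast; ring
      rw [this, zpow_one_add, Equiv.Perm.mul_apply]
      rfl
    refine ((ih.comp E2).comp E1).congr fun a b ha hb => ?_
    constructor
    · rintro ⟨e', he', ⟨e, he, ⟨ha', h1⟩, h2, h3⟩, h4, h5⟩
      refine ⟨ha', ?_⟩
      rw [key]
      obtain ⟨s, hs⟩ : ∃ s, s = (D.tau ^ (L : ℤ)) ⟨a, ha'⟩ := ⟨_, rfl⟩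
      rw [← hs] at h1 ⊢
      subst h1
      have h6 : (⟨e', he'⟩ : {a : V × V // IsC H (x₀, y₀) a}) = D.i₂ s := by
        rcases (dihB_unique h h' hD s ⟨e', he'⟩).2 h2 with h7 | h7
        · exact absurd (congrArg (fun z => z.1.1) h7) h3
        · exact h7
      have h8 : (⟨b, hb⟩ : {a : V × V // IsC H (x₀, y₀) a}) = D.i₁ (D.i₂ s) := by
        rw [← h6]
        rcases (dihB_unique h h' hD ⟨e', he'⟩ ⟨b, hb⟩).1 h4 with h7 | h7
        · exact absurd (congrArg (fun z => z.1.2) h7) h5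
        · exact h7
      rw [← h8]
    · rintro ⟨ha', h1⟩
      rw [key] at h1
      obtain ⟨s, hs⟩ : ∃ s, s = (D.tau ^ (L : ℤ)) ⟨a, ha'⟩ := ⟨_, rfl⟩
      rw [← hs] at h1
      refine ⟨(D.i₂ s).1, (D.i₂ s).2, ⟨s.1, s.2, ⟨ha', by rw [← hs]⟩, hD.h₂ s, hD.t₂ s⟩, ?_, ?_⟩
      · rw [← h1]
        exact hD.t₁ (D.i₂ s)
      · rw [← h1]
        exact hD.h₁ (D.i₂ s)

theorem case_B' [Finite V] (hm : Multi H) (h3 : ∀ x, 3 ≤ (H.neighborSet x).ncard)
    (hcon : H.Connected) (h2 : ∀ x y, (nbc H x y).ncard ≤ 2)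
    {x₀ y₀ y₁ : V} (hxy : H.Adj x₀ y₀) (hxy' : H.Adj x₀ y₁) (hyy : Sim H y₀ y₁)
    (hne : nbc H y₀ x₀ ≠ nbc H y₁ x₀) : HardH H := by
  classical
  have : Nonempty V := ⟨x₀⟩
  have hy : y₀ ≠ y₁ := fun h => hne (by rw [h])
  have h : (nbc H x₀ y₀).ncard = 2 := by
    refine le_antisymm (h2 _ _) ?_
    have : ({y₀, y₁} : Set V) ⊆ nbc H x₀ y₀ := by
      rintro z (rfl | rfl)
      · exact ⟨hxy, sim_refl H _⟩
      · exact ⟨hxy', sim_symm hyy⟩
    have := Set.ncard_le_ncard this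
    rwa [Set.ncard_pair hy] at this
  have hx1 : x₀ ∈ nbc H y₀ x₀ := ⟨hxy.symm, sim_refl H _⟩
  have hx2 : x₀ ∈ nbc H y₁ x₀ := ⟨hxy'.symm, sim_refl H _⟩
  have h' : (nbc H y₀ x₀).ncard = 2 := by
    have e1 : (nbc H y₀ x₀).ncard = (nbc H y₁ x₀).ncard := nbc_ncard hyy (sim_refl H _)
    have e2 := h2 y₀ x₀
    have e3 : 0 < (nbc H y₀ x₀).ncard := (Set.ncard_pos (Set.toFinite _)).2 ⟨x₀, hx1⟩
    by_contra hcon
    have e4 : (nbc H y₀ x₀).ncard = 1 := by omega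
    obtain ⟨z, hz⟩ := Set.ncard_eq_one.1 e4
    obtain ⟨z', hz'⟩ := Set.ncard_eq_one.1 (e1 ▸ e4)
    rw [hz] at hx1
    rw [hz'] at hx2
    apply hne
    rw [hz, hz', ← Set.mem_singleton_iff.1 hx1, ← Set.mem_singleton_iff.1 hx2]
  obtain ⟨D, hD⟩ := exists_dihB hxy h h'
  have hC0 : IsC H (x₀, y₀) (x₀, y₀) := ⟨hxy, sim_refl H _, sim_refl H _⟩
  have hC1 : IsC H (x₀, y₀) (x₀, y₁) := ⟨hxy', sim_refl H _, sim_symm hyy⟩
  set a₀ : {a : V × V // IsC H (x₀, y₀) a} := ⟨(x₀, y₀), hC0⟩ with ha₀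
  have hn : 3 ≤ D.per a₀ := dihB_per h h' hD hC0 hC1 hne
  set n := D.per a₀ with hnd
  obtain ⟨K, P, hB⟩ := base_multi hm h3
  -- the basic relations
  have hTl : FB K (x₀, y₀) (x₀, y₀) (fun a b => b.1 = a.1) := fb_tail hB hm hxy hxy
  have hHd : FB K (x₀, y₀) (x₀, y₀) (fun a b => b.swap.1 = a.swap.1) :=
    caseBM_rev hB hm hxy (fb_tail hB hm hxy.symm hxy.symm)
  have hS : FTl K (x₀, y₀) (lk H x₀ y₀) := by
    refine (hTl.comp (hHd.comp hTl)).congr fun a b ha hb => ?_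
    constructor
    · rintro ⟨e, he, h4, e', he', h5, h6⟩
      have h5' : e'.2 = e.2 := h5
      refine ⟨ha.2.1, hb.2.1, e.2, he.2.2, ?_, ?_⟩
      · rw [← h4]
        exact he.1
      · rw [h6, ← h5']
        exact he'.1
    · rintro ⟨-, -, y, h4, h5, h6⟩
      exact ⟨(a.1, y), ⟨h5, ha.2.1, h4⟩, rfl, (b.1, y), ⟨h6, hb.2.1, h4⟩, rfl, rfl⟩
  have hF : FTl K (x₀, y₀) (fun x x' => ∃ s : {a : V × V // IsC H (x₀, y₀) a}, x = s.1.1 ∧
      x' = ((D.tau ^ ((n / 2 : ℕ) : ℤ)) s).1.1) := by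
    refine (hTl.comp ((caseBM_pow hB hm hxy h h' hD (n / 2)).comp hTl)).congr
      fun a b ha hb => ?_
    constructor
    · rintro ⟨e, he, h4, e', he', ⟨h7, h5⟩, h6⟩
      exact ⟨⟨e, h7⟩, h4.symm, by rw [h6, h5]⟩
    · rintro ⟨s, h4, h5⟩
      exact ⟨s.1, s.2, h4.symm, ((D.tau ^ ((n / 2 : ℕ) : ℤ)) s).1,
        ((D.tau ^ ((n / 2 : ℕ) : ℤ)) s).2, ⟨s.2, rfl⟩, h5⟩
  have hC : FDef K (fun _ : Unit => (x₀, y₀)) (fun v => IsC H (x₀, y₀) (v ()) ∧
      ∃ e : H ≃g H, (v ()).1 = e x₀) := by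
    have A := (const_fdef hB hm hcon hxy).comap (tX' := Sum.elim (fun _ : Unit => (x₀, y₀))
      (fun _ : Unit => (x₀, y₀))) (fun _ : Unit => (Sum.inr () : Unit ⊕ Unit))
      (fun _ => ⟨sim_refl H _, sim_refl H _⟩)
    have T := FDef.comap (tX' := Sum.elim (fun _ : Unit => (x₀, y₀))
      (fun _ : Unit => (x₀, y₀))) hTl (fun b : Bool => if b then (Sum.inl () : Unit ⊕ Unit)
        else Sum.inr ()) (fun b => by cases b <;> exact ⟨sim_refl H _, sim_refl H _⟩)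
    refine (FDef.ex (A.and T)).congr fun v => ?_
    constructor
    · rintro ⟨u, ⟨e, he⟩, h4, h5, h6⟩
      have he' : u () = (e x₀, e y₀) := he
      have h6' : (v ()).1 = (u ()).1 := h6
      exact ⟨h5, e, by rw [h6', he']⟩
    · rintro ⟨h4, e, he⟩
      refine ⟨fun _ => (e x₀, e y₀), ⟨e, rfl⟩, ?_, h4, he⟩
      exact ⟨e.map_adj_iff.2 hxy, iso_sim e x₀, iso_sim e y₀⟩
  refine ring_hard' (K := K) hB.deg (c := (x₀, y₀)) hxy hS (ftl_eq hB hm hxy) D (n := n) hn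
    (fun a => by rw [hD.tl a]; exact a.2.2.1)
    (fun a _ x' => dihB_step h h' hD a x') hF ?_ ?_ (Cn := fun x => ∃ e : H ≃g H, x = e x₀) hC ?_ ?_
  · rintro a - x' ⟨b, h4, h5⟩
    rw [hD.tl a] at h4
    rcases (dihB_unique h h' hD a b).1 h4.symm with h6 | h6
    · left
      rw [h5, h6, hD.tl]
    · right
      rw [h5, h6, D.tau_i₁, hD.t₁, hD.tl]
  · intro a _
    exact ⟨a, hD.tl a, hD.tl _⟩
  · rintro x ⟨e, rfl⟩
    obtain ⟨b, hb, hb'⟩ := dihB_iso h h' hD e a₀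
    exact ⟨b, hb', by rw [hD.tl b, hb]⟩
  · exact ⟨x₀, sim_refl H _, SimpleGraph.Iso.refl, rfl⟩

end Pool.Agent.H24.GF
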