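import Pool.Agent.H24.GF.RingM
import Pool.Agent.H24.GF.ConstM
import Pool.Agent.H24.GC.CaseC
import Pool.Agent.H24.GE.BaseM

/-!
# JOB GF-7: two swaps which do not commute (graphs with bridges)

`case_C'`: as `case_C` (file `Pool.Agent.H24.GC.CaseC`, read it first) with `ring_hard'`. Let `K, P` be from `base_multi`, `y e` a
neighbour of `x` similar to `c e` (`h.adj`, `nbc_ncard`), the type of the ring is `(x, y true)`. `S` is the conjunction in
`dihC_step`, `L = n / 2`. `FTl` for `lk H x₀ (c e)`: as in the file `CaseBM` (header): `fb_tail` from `(x, y true)` to `(x, y e)`,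
`fb_rev`, `fb_tail` for `(y e, x)`, `(y e, x)`, `fb_rev`, `fb_tail` back (`caseC_lk` for the change of `x₀`). The exact swap relation
(`x₂` the other element of `nbc H v x₀`, `v ~ c e` a neighbour of `x₁`): the same with `fb_oth` for `(y e, x)`, `(y e, x)` in the
middle (`nbc H (y e) x` has two elements: `h.two`). `F z z'`: the alternating composition of `L` swaps which starts with
`e = false` or the one which starts with `e = true`; it is enough to take the first one: `F z z'` iff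
`z' = tl (τ ^ L (z, false))` (`dihC_lab`, `dihC_tau`, `IsDihC.h₂`, see `walkC`). `hF1`: the state `a` with the tail `z` is
`(z, false)`, or `(z, true) = i₁ (z, false)`, see `hwalk` in the proof of `case_C`. `hF2`: if `a = (z, true)` then
`τ ^ L` and `τ ^ (-L)` have the same tail, as `n = 2 * L` (see the end of the proof of `case_C`). `Cn z`: the image of `x` under an
automorphism: `const_fdef` for the arc `(x, y true)`; `hC1`: `dihC_iso`.
-/

namespace Pool.Agent.H24.GF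

open Pool.Agent.H24.GC Pool.Agent.H24.GD Pool.Agent.H24.GE

variable {V : Type} {H : SimpleGraph V}

/-- composition through arcs of the type `(y₂, x)` -/
theorem CaseCM_mid [Finite V] {K : Kit H} {P : V → K.W} (hB : Base K P) (hm : Multi H)
    {x y₁ y₂ : V} (h1 : H.Adj x y₁) (h2 : H.Adj x y₂) {M : V × V → V × V → Prop}
    (hM : FB K (y₂, x) (y₂, x) M) :
    FTl K (x, y₁) (fun z z' => ∃ u v, IsC H (y₂, x) (u, z) ∧ IsC H (y₂, x) (v, z') ∧
      M (u, z) (v, z')) := by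
  have r1 : FB K (x, y₁) (x, y₂) (fun a b => b.1 = a.1) := fb_tail hB hm h1 h2
  have r2 : FB K (x, y₂) (y₂, x) (fun a b => b = a.swap) := fb_rev hB hm (c := (x, y₂)) h2
  have r3 : FB K (y₂, x) (x, y₂) (fun a b => b = a.swap) := fb_rev hB hm (c := (y₂, x)) h2.symm
  have r4 : FB K (x, y₂) (x, y₁) (fun a b => b.1 = a.1) := fb_tail hB hm h2 h1
  refine ((((r1.comp r2).comp hM).comp r3).comp r4).congr ?_
  intro a b ha hb
  constructor
  · rintro ⟨e4, h4, ⟨e3, h5, ⟨e2, h6, ⟨e1, h7, h8, h9⟩, h10⟩, h11⟩, h12⟩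
    obtain ⟨e3a, e3b⟩ := e3
    obtain ⟨e1a, e1b⟩ := e1
    subst h9
    subst h11
    have h8' : e1a = a.1 := h8
    have h12' : b.1 = e3b := h12
    refine ⟨e1b, e3a, ?_, ?_, ?_⟩
    · rw [← h8']
      exact h6
    · rw [h12']
      exact h5
    · rw [← h8', h12']
      exact h10
  · rintro ⟨u, v, h4, h5, h6⟩
    exact ⟨(b.1, v), ⟨h5.1.symm, h5.2.2, h5.2.1⟩, ⟨(v, b.1), h5, ⟨(u, a.1), h4,
      ⟨(a.1, u), ⟨h4.1.symm, h4.2.2, h4.2.1⟩, rfl, rfl⟩, h6⟩, rfl⟩, rfl⟩

/-- the common neighbour relation is definable -/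
theorem CaseCM_lk [Finite V] {K : Kit H} {P : V → K.W} (hB : Base K P) (hm : Multi H)
    {x y₁ y₂ x₀ d : V} (h1 : H.Adj x y₁) (h2 : H.Adj x y₂) (hx : Sim H x x₀)
    (hd : Sim H y₂ d) : FTl K (x, y₁) (lk H x₀ d) := by
  refine (CaseCM_mid hB hm h1 h2 (fb_tail hB hm h2.symm h2.symm)).congr ?_
  intro a b ha hb
  constructor
  · rintro ⟨u, v, h4, h5, h6⟩
    have h6' : v = u := h6
    subst h6'
    exact ⟨sim_trans h4.2.2 hx, sim_trans h5.2.2 hx, v, sim_trans h4.2.1 hd, h4.1.symm,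
      h5.1.symm⟩
  · rintro ⟨h4, h5, u, h6, h7, h8⟩
    exact ⟨u, u, ⟨h7.symm, sim_trans h6 (sim_symm hd), sim_trans h4 (sim_symm hx)⟩,
      ⟨h8.symm, sim_trans h6 (sim_symm hd), sim_trans h5 (sim_symm hx)⟩, rfl⟩

/-- the exact swap relation is definable -/
theorem CaseCM_sw [Finite V] {K : Kit H} {P : V → K.W} (hB : Base K P) (hm : Multi H)
    {x y₁ y₂ x₀ d : V} (h1 : H.Adj x y₁) (h2 : H.Adj x y₂) (hx : Sim H x x₀)
    (hd : Sim H y₂ d) (htw : 2 ≤ (nbc H y₂ x).ncard) :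
    FTl K (x, y₁) (fun z z' => lk H x₀ d z z' ∧ z' ≠ z) := by
  refine (CaseCM_mid hB hm h1 h2 (fb_oth hB hm h2.symm h2.symm (Or.inr htw))).congr ?_
  intro a b ha hb
  constructor
  · rintro ⟨u, v, h4, h5, h6, h9⟩
    have h6' : v = u := h6
    subst h6'
    exact ⟨⟨sim_trans h4.2.2 hx, sim_trans h5.2.2 hx, v, sim_trans h4.2.1 hd, h4.1.symm,
      h5.1.symm⟩, h9⟩
  · rintro ⟨⟨h4, h5, u, h6, h7, h8⟩, h9⟩
    exact ⟨u, u, ⟨h7.symm, sim_trans h6 (sim_symm hd), sim_trans h4 (sim_symm hx)⟩,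
      ⟨h8.symm, sim_trans h6 (sim_symm hd), sim_trans h5 (sim_symm hx)⟩, rfl, h9⟩

/-- the alternating composition of swaps is definable -/
theorem CaseCM_F [Finite V] {K : Kit H} {P : V → K.W} (hB : Base K P) (hm : Multi H)
    {x₀ : V} {c : Bool → V} (h : HypC H x₀ c)
    {D : Dih ({x : V // Sim H x x₀} × Bool) V} (hD : IsDihC H x₀ c D)
    {x : V} (hx : Sim H x x₀) {y : Bool → V} (hy : ∀ e, H.Adj x (y e))
    (hyc : ∀ e, Sim H (y e) (c e)) (L : ℕ) :
    FTl K (x, y true) (fun z z' => ∃ hz : Sim H z x₀,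
      z' = D.tl ((D.tau ^ (L : ℤ)) (⟨z, hz⟩, false))) := by
  induction L with
  | zero =>
    refine (ftl_eq hB hm (c := (x, y true)) (hy true)).congr ?_
    intro a b ha hb
    constructor
    · intro h1
      have h1' : a.1 = b.1 := h1
      refine ⟨sim_trans ha.2.1 hx, ?_⟩
      have e0 : ((0 : ℕ) : ℤ) = 0 := rfl
      rw [e0, zpow_zero, Equiv.Perm.one_apply, hD.tl]
      exact h1'.symm
    · rintro ⟨hz, h1⟩
      have e0 : ((0 : ℕ) : ℤ) = 0 := rfl
      rw [e0, zpow_zero, Equiv.Perm.one_apply, hD.tl] at h1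
      exact h1.symm
  | succ L ih =>
    have htw : 2 ≤ (nbc H (y (false.xor (decide (L % 2 = 1)))) x).ncard := by
      rw [nbc_ncard (hyc _) hx, h.two]
    have hsw := CaseCM_sw hB hm (hy true) (hy (false.xor (decide (L % 2 = 1)))) hx
      (hyc (false.xor (decide (L % 2 = 1)))) htw
    refine (FTl.comp (c := (x, y true)) (hy true) ih hsw).congr ?_
    intro a b ha hb
    have e1 : ∀ q : {x : V // Sim H x x₀} × Bool,
        (D.tau ^ ((L + 1 : ℕ) : ℤ)) q = D.tau ((D.tau ^ (L : ℤ)) q) := by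
      intro q
      rw [Nat.cast_add, Nat.cast_one, add_comm, zpow_add, zpow_one]
      rfl
    constructor
    · rintro ⟨w, hw, ⟨hz, h1⟩, h2, h3⟩
      refine ⟨hz, ?_⟩
      rw [e1, (dihC_tau hD _).1, hD.tl]
      have hlab := dihC_lab hD (⟨a.1, hz⟩, false) L
      have hlab' : ((D.tau ^ (L : ℤ)) (⟨a.1, hz⟩, false)).2 =
        false.xor (decide (L % 2 = 1)) := hlab
      generalize (D.tau ^ (L : ℤ)) (⟨a.1, hz⟩, false) = q at *
      rw [hD.tl] at h1
      rw [h1, ← hlab', dihCx_lk h hD] at h2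
      rcases h2 with h2 | h2
      · exact absurd (h2.trans h1.symm) h3
      · exact h2
    · rintro ⟨hz, h1⟩
      rw [e1, (dihC_tau hD _).1, hD.tl] at h1
      have hlab := dihC_lab hD (⟨a.1, hz⟩, false) L
      have hlab' : ((D.tau ^ (L : ℤ)) (⟨a.1, hz⟩, false)).2 =
        false.xor (decide (L % 2 = 1)) := hlab
      refine ⟨D.tl ((D.tau ^ (L : ℤ)) (⟨a.1, hz⟩, false)), ?_, ⟨hz, rfl⟩, ?_⟩
      · rw [hD.tl]
        exact sim_trans ((D.tau ^ (L : ℤ)) (⟨a.1, hz⟩, false)).1.2 (sim_symm hx)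
      · generalize (D.tau ^ (L : ℤ)) (⟨a.1, hz⟩, false) = q at *
        rw [hD.tl, ← hlab', dihCx_lk h hD]
        have h1' : b.1 = (D.i₂ q).1.1 := h1
        refine ⟨Or.inr h1', ?_⟩
        rw [h1']
        intro h4
        exact hD.t₂ q (Subtype.ext h4)

/-- the images of `x` under automorphisms are definable -/
theorem CaseCM_const [Finite V] {K : Kit H} {P : V → K.W} (hB : Base K P) (hm : Multi H)
    (hcon : H.Connected) {x y : V} (hxy : H.Adj x y) :
    FDef K (fun _ : Unit => (x, y)) (fun v => IsC H (x, y) (v ()) ∧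
      ∃ e : H ≃g H, (v ()).1 = e x) := by
  have h1 := const_fdef hB hm hcon hxy
  have h2 : FB K (x, y) (x, y) (fun a b => b.1 = a.1) := fb_tail hB hm hxy hxy
  have h3 := FDef.comap (tX' := Sum.elim (fun _ : Unit => (x, y)) (fun _ : Unit => (x, y))) h1
    (fun _ : Unit => (Sum.inr () : Unit ⊕ Unit)) (fun _ => ⟨sim_refl H _, sim_refl H _⟩)
  have h4 := FDef.comap (tX' := Sum.elim (fun _ : Unit => (x, y)) (fun _ : Unit => (x, y))) h2
    (fun b : Bool => if b then (Sum.inr () : Unit ⊕ Unit) else Sum.inl ()) (by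
      intro b
      cases b
      · exact ⟨sim_refl H _, sim_refl H _⟩
      · exact ⟨sim_refl H _, sim_refl H _⟩)
  refine (FDef.ex (X₁ := Unit) (h3.and h4)).congr fun v => ?_
  constructor
  · rintro ⟨u, ⟨e, h5⟩, h6, h7, h8⟩
    have h5' : u () = (e x, e y) := h5
    have h6' : IsC H (x, y) (v ()) := h6
    have h8' : (u ()).1 = (v ()).1 := h8
    refine ⟨h6', e, ?_⟩
    rw [← h8', h5']
  · rintro ⟨h5, e, h6⟩
    refine ⟨fun _ => (e x, e y), ⟨e, rfl⟩, h5, ?_, ?_⟩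
    · exact ⟨e.map_adj_iff.2 hxy, iso_sim e x, iso_sim e y⟩
    · exact h6.symm

theorem case_C' [Finite V] (hm : Multi H) (h3 : ∀ x, 3 ≤ (H.neighborSet x).ncard)
    (hcon : H.Connected) (h2 : ∀ x y, (nbc H x y).ncard ≤ 2)
    {x₀ : V} {c : Bool → V} (h : HypC H x₀ c) (hcd : ¬ Sim H (c false) (c true))
    {D : Dih ({x : V // Sim H x x₀} × Bool) V} (hD : IsDihC H x₀ c D)
    (x : {x : V // Sim H x x₀})
    (hne : (D.i₂ ((D.i₂ (x, false)).1, true)).1 ≠ (D.i₂ ((D.i₂ (x, true)).1, false)).1) :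
    HardH H := by
  have hNE : Nonempty V := ⟨x₀⟩
  obtain ⟨n, hn⟩ : ∃ n, n = D.per (x, false) := ⟨_, rfl⟩
  have hn4 : ¬ n ∣ 4 := by
    rw [hn]
    exact dihC_per h hD x hne
  have hn2 : 2 ∣ n := by
    rw [hn]
    exact dihC_even hD _
  have hn0 : 0 < n := by
    rw [hn]
    exact D.per_pos _
  have hn6 : 6 ≤ n := by
    by_contra hcon
    have : n = 2 ∨ n = 4 := by omega
    rcases this with h1 | h1 <;> rw [h1] at hn4 <;> exact hn4 (by norm_num)
  obtain ⟨L, hL⟩ : ∃ L, L = n / 2 := ⟨_, rfl⟩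
  have hL2 : 2 * L = n := by omega
  obtain ⟨K, P, hB⟩ := base_multi hm h3
  choose y hyc hy using fun e => dihCx_ex h x.2 e
  have hk1 := CaseCM_lk hB hm (hy true) (hy false) x.2 (hyc false)
  have hk2 := CaseCM_lk hB hm (hy true) (hy true) x.2 (hyc true)
  have hS := FTl.and (FTl.comp (c := (x.1, y true)) (hy true) hk1 hk2)
    (FTl.comp (c := (x.1, y true)) (hy true) hk2 hk1)
  have hF := CaseCM_F hB hm h hD x.2 hy hyc L
  have hC := CaseCM_const hB hm hcon (hy true)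
  have hi1 : ∀ a, D.tl (D.i₁ a) = D.tl a := fun a => (D.tl_iff _ _).2 (Or.inr (D.inv₁ a).symm)
  have hst : ∀ a : {x : V // Sim H x x₀} × Bool, ∀ hz : Sim H (D.tl a) x₀,
      ((⟨D.tl a, hz⟩, false) : {x : V // Sim H x x₀} × Bool) = a ∨
        ((⟨D.tl a, hz⟩, false) : {x : V // Sim H x x₀} × Bool) = D.i₁ a := by
    intro a hz
    have h0 : (⟨D.tl a, hz⟩ : {x : V // Sim H x x₀}) = a.1 := Subtype.ext (hD.tl a)
    rw [h0]
    obtain ⟨z, e⟩ := a
    cases e with
    | false => exact Or.inl rfl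
    | true =>
      right
      rw [hD.i₁]
      rfl
  refine ring_hard' (K := K) hB.deg (c := (x.1, y true)) (hy true) hS
    (ftl_eq hB hm (c := (x.1, y true)) (hy true)) D (n := n) (by omega) ?_ ?_ hF ?_ ?_
    (Cn := fun z => ∃ e : H ≃g H, z = e x.1) hC ?_ ?_
  · intro a
    rw [hD.tl]
    exact sim_trans a.1.2 (sim_symm x.2)
  · intro a ha x'
    have h1 := dihC_step h hD a (by rw [ha]; exact hn4) x'
    have e1 : ∀ z, Sim H z x.1 ↔ Sim H z x₀ := fun z =>
      ⟨fun h => sim_trans h x.2, fun h => sim_trans h (sim_symm x.2)⟩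
    rw [← h1]
    simp only [e1]
  · rintro a ha x' ⟨hz, h1⟩
    rw [← hL]
    rcases hst a hz with h4 | h4
    · rw [h4] at h1
      exact Or.inl h1
    · rw [h4, D.tau_i₁, hi1] at h1
      exact Or.inr h1
  · intro a ha
    rw [← hL]
    have hz : Sim H (D.tl a) x₀ := by
      rw [hD.tl]
      exact a.1.2
    refine ⟨hz, ?_⟩
    rcases hst a hz with h4 | h4
    · rw [h4]
    · rw [h4, D.tau_i₁, hi1, D.tl_iff_dvd, ha, ← hL2]
      exact ⟨1, by push_cast; ring⟩
  · rintro z ⟨g, hg⟩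
    obtain ⟨b, hb1, -, hb3⟩ := dihC_iso h hD g (x, false)
    refine ⟨b, hb3.trans hn.symm, ?_⟩
    rw [hD.tl, hb1]
    exact hg
  · exact ⟨x.1, sim_refl H _, SimpleGraph.Iso.refl, rfl⟩

end Pool.Agent.H24.GF
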