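import Pool.Agent.H24.GE.TRel
import Pool.Agent.H24.GC.Ring

/-!
# JOB GF-3: definable relations between arcs

`FB K c c' S`: the relation `S` between arcs of the types `c` and `c'` is definable (`FDef`). `FB.symm`: `FDef.comap` with
`not`. `FB.and`: `FDef.and`. `FB.comp`: `FDef.comap` and `FDef.ex` with one new variable (`X₁ = Unit`), as `BDef.comp` (file
`Pool.Agent.H24.GC.BDef`). `FB.ty`: `FDef.comap` with `id`.
`fb_eq`: `eq_def` (file `Pool.Agent.H24.GE.TRel`) and `FDef.of_pdef`, `FB.ty` (replace `c.2` by a neighbour of `c.1`, it is one by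
`hc`). `fb_rev`: `rev_def` and `FDef.of_pdef`. `fb_tail`: the relation of two arcs of the types `(x, y)` and `(x, z)` with the
same tail: `base_tail'` (file `Pool.Agent.H24.GD.Tie`). `fb_oth`: two different arcs of the types `(x, y)`, `(x, z)` with the same
tail: `ar_fdef` for `k = 0` (if there is such a pair; otherwise the relation is empty: take the definition of an
inconsistent relation, e.g. `FDef.congr` from a relation which is never satisfied; but if there are no two different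
arcs then `y`, `z` are similar and `nbc H x y` has only one element: use `fb_tail`, `FDef.and`... the hypothesis `hne`
excludes this case).
`FTl K c S`: the relation `S` between tails of arcs of the type `c`. `FTl.comp`, `FTl.pw`: as `TD.comp`, `TD.pw` (file
`Pool.Agent.H24.GC.Ring`). `FTl.and`: `FDef.and`. `ftl_eq`: `fb_tail` for `y = z = c.2`.
-/

namespace Pool.Agent.H24.GF

open Pool.Agent.H24.GC Pool.Agent.H24.GD Pool.Agent.H24.GE

variable {V : Type} {H : SimpleGraph V}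

/-- the relation `S` between arcs of the types `c` and `c'` is definable -/
def FB (K : Kit H) (c c' : V × V) (S : V × V → V × V → Prop) : Prop :=
  FDef K (fun b : Bool => if b then c' else c)
    (fun v => IsC H c (v false) ∧ IsC H c' (v true) ∧ S (v false) (v true))

/-- the relation `S` between the tails of arcs of the type `c` is definable -/
def FTl (K : Kit H) (c : V × V) (S : V → V → Prop) : Prop := FB K c c (fun a b => S a.1 b.1)

theorem FB.congr {K : Kit H} {c c' : V × V} {S S' : V × V → V × V → Prop} (h : FB K c c' S)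
    (hS : ∀ a b, IsC H c a → IsC H c' b → (S a b ↔ S' a b)) : FB K c c' S' := by
  refine FDef.congr h fun v => ?_
  constructor
  · rintro ⟨h1, h2, h3⟩
    exact ⟨h1, h2, (hS _ _ h1 h2).1 h3⟩
  · rintro ⟨h1, h2, h3⟩
    exact ⟨h1, h2, (hS _ _ h1 h2).2 h3⟩

theorem FB.symm [Finite V] {K : Kit H} {c c' : V × V} {S : V × V → V × V → Prop}
    (h : FB K c c' S) : FB K c' c (fun a b => S b a) := by
  have h1 := FDef.comap (tX' := fun b : Bool => if b then c else c') h Bool.not (by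
    intro x
    cases x
    · exact ⟨sim_refl H _, sim_refl H _⟩
    · exact ⟨sim_refl H _, sim_refl H _⟩)
  refine FDef.congr h1 fun v => ?_
  constructor
  · rintro ⟨h2, h3, h4⟩
    exact ⟨h3, h2, h4⟩
  · rintro ⟨h2, h3, h4⟩
    exact ⟨h3, h2, h4⟩

theorem FB.and [Finite V] {K : Kit H} {c c' : V × V} {S S' : V × V → V × V → Prop}
    (h : FB K c c' S) (h' : FB K c c' S') : FB K c c' (fun a b => S a b ∧ S' a b) := by
  refine FDef.congr (FDef.and h h') fun v => ?_
  constructor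
  · rintro ⟨⟨h1, h2, h3⟩, -, -, h4⟩
    exact ⟨h1, h2, h3, h4⟩
  · rintro ⟨h1, h2, h3, h4⟩
    exact ⟨⟨h1, h2, h3⟩, h1, h2, h4⟩

theorem FB.comp [Finite V] {K : Kit H} {c c' c'' : V × V} {S S' : V × V → V × V → Prop}
    (h : FB K c c' S) (h' : FB K c' c'' S') :
    FB K c c'' (fun a b => ∃ e, IsC H c' e ∧ S a e ∧ S' e b) := by
  have h1 : FDef K (Sum.elim (fun b : Bool => if b then c'' else c) (fun _ : Unit => c'))
      (fun w => IsC H c (w (Sum.inl false)) ∧ IsC H c' (w (Sum.inr ())) ∧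
        S (w (Sum.inl false)) (w (Sum.inr ()))) := by
    refine FDef.congr (FDef.comap h
      (fun b : Bool => if b then (Sum.inr () : Bool ⊕ Unit) else Sum.inl false) ?_)
      (fun v => Iff.rfl)
    intro x
    cases x
    · exact ⟨sim_refl H _, sim_refl H _⟩
    · exact ⟨sim_refl H _, sim_refl H _⟩
  have h2 : FDef K (Sum.elim (fun b : Bool => if b then c'' else c) (fun _ : Unit => c'))
      (fun w => IsC H c' (w (Sum.inr ())) ∧ IsC H c'' (w (Sum.inl true)) ∧
        S' (w (Sum.inr ())) (w (Sum.inl true))) := by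
    refine FDef.congr (FDef.comap h'
      (fun b : Bool => if b then (Sum.inl true : Bool ⊕ Unit) else Sum.inr ()) ?_)
      (fun v => Iff.rfl)
    intro x
    cases x
    · exact ⟨sim_refl H _, sim_refl H _⟩
    · exact ⟨sim_refl H _, sim_refl H _⟩
  have h3 := FDef.ex (h1.and h2)
  refine FDef.congr h3 fun v => ?_
  constructor
  · rintro ⟨u, ⟨h4, h5, h6⟩, -, h7, h8⟩
    exact ⟨h4, h7, u (), h5, h6, h8⟩
  · rintro ⟨h4, h7, e, h5, h6, h8⟩
    exact ⟨fun _ => e, ⟨h4, h5, h6⟩, h5, h7, h8⟩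

private theorem fbTy_isC [Finite V] {c d : V × V} (h : Sim H c.1 d.1 ∧ Sim H c.2 d.2) (a : V × V) :
    IsC H c a ↔ IsC H d a := by
  constructor
  · rintro ⟨h1, h2, h3⟩
    exact ⟨h1, sim_trans h2 h.1, sim_trans h3 h.2⟩
  · rintro ⟨h1, h2, h3⟩
    exact ⟨h1, sim_trans h2 (sim_symm h.1), sim_trans h3 (sim_symm h.2)⟩

theorem FB.ty [Finite V] {K : Kit H} {c c' d d' : V × V} {S : V × V → V × V → Prop}
    (h : FB K c c' S) (h1 : Sim H c.1 d.1 ∧ Sim H c.2 d.2) (h2 : Sim H c'.1 d'.1 ∧ Sim H c'.2 d'.2) :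
    FB K d d' S := by
  have h3 := FDef.comap (tX' := fun b : Bool => if b then d' else d) h id (by
    intro x
    cases x
    · exact h1
    · exact h2)
  refine FDef.congr h3 fun v => ?_
  show IsC H c (v false) ∧ IsC H c' (v true) ∧ S (v false) (v true) ↔ _
  rw [fbTy_isC h1, fbTy_isC h2]

theorem fb_eq [Finite V] {K : Kit H} {P : V → K.W} (hB : Base K P) (hm : Multi H) {c : V × V}
    (hc : H.Adj c.1 c.2) : FB K c c (fun a b => a = b) := by
  refine FDef.congr (FDef.of_pdef (eq_def hB hm hc)) fun v => ?_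
  constructor
  · rintro ⟨h1, h2⟩
    exact ⟨h1, h2 ▸ h1, h2⟩
  · rintro ⟨h1, -, h2⟩
    exact ⟨h1, h2⟩

theorem fb_rev [Finite V] {K : Kit H} {P : V → K.W} (hB : Base K P) (hm : Multi H) {c : V × V}
    (hc : H.Adj c.1 c.2) : FB K c c.swap (fun a b => b = a.swap) := by
  refine FDef.congr (FDef.of_pdef (rev_def hB hm hc)) fun v => ?_
  constructor
  · rintro ⟨h1, h2⟩
    refine ⟨h1, ?_, h2⟩
    have h3 : IsC H c.swap ((v false).2, (v false).1) := ⟨h1.1.symm, h1.2.2, h1.2.1⟩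
    rw [← h2] at h3
    exact h3
  · rintro ⟨h1, -, h2⟩
    exact ⟨h1, h2⟩

theorem fb_tail [Finite V] {K : Kit H} {P : V → K.W} (hB : Base K P) (hm : Multi H) {x y z : V}
    (hy : H.Adj x y) (hz : H.Adj x z) : FB K (x, y) (x, z) (fun a b => b.1 = a.1) := by
  refine FDef.congr (FDef.of_pdef (base_tail' hB hm hy hz)) fun v => ?_
  constructor
  · rintro ⟨h1, h2, h3⟩
    exact ⟨h1, h2, h3.symm⟩
  · rintro ⟨h1, h2, h3⟩
    exact ⟨h1, h2, h3.symm⟩

theorem fb_oth [Finite V] {K : Kit H} {P : V → K.W} (hB : Base K P) (hm : Multi H) {x y z : V}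
    (hy : H.Adj x y) (hz : H.Adj x z) (hne : ¬ Sim H y z ∨ 2 ≤ (nbc H x y).ncard) :
    FB K (x, y) (x, z) (fun a b => b.1 = a.1 ∧ b.2 ≠ a.2) := by
  have hex : ∃ y' z' : V, H.Adj x y' ∧ H.Adj x z' ∧ y' ≠ z' ∧ Sim H y' y ∧ Sim H z' z := by
    by_cases hs : Sim H y z
    · have h2 : 1 < (nbc H x y).ncard := by
        rcases hne with h | h
        · exact (h hs).elim
        · exact h
      obtain ⟨y', hy', z', hz', hyz⟩ := (Set.one_lt_ncard (Set.toFinite _)).1 h2
      exact ⟨y', z', hy'.1, hz'.1, hyz, hy'.2, sim_trans hz'.2 hs⟩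
    · exact ⟨y, z, hy, hz, fun h => hs (h ▸ sim_refl H _), sim_refl H _, sim_refl H _⟩
  obtain ⟨y', z', h1, h2, h3, h4, h5⟩ := hex
  have h6 : ∃ a b, AR H 0 x y z a b := by
    refine ⟨(x, y'), (x, z'), h1, h2, sim_refl H _, h4, ?_⟩
    rw [if_pos rfl]
    exact ⟨rfl, h3.symm, h5⟩
  have h7 := ar_fdef hB hm h6
  have h8 : arT 0 x y z = fun b : Bool => if b then (x, z) else (x, y) := by
    funext b
    unfold arT
    rw [if_pos rfl]
  rw [h8] at h7
  refine FDef.congr h7 fun v => ?_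
  constructor
  · rintro ⟨g1, g2, g3, g4, g5⟩
    rw [if_pos rfl] at g5
    obtain ⟨g6, g7, g8⟩ := g5
    exact ⟨⟨g1, g3, g4⟩, ⟨g2, g6 ▸ g3, g8⟩, g6, g7⟩
  · rintro ⟨⟨g1, g3, g4⟩, ⟨g2, -, g8⟩, g6, g7⟩
    refine ⟨g1, g2, g3, g4, ?_⟩
    rw [if_pos rfl]
    exact ⟨g6, g7, g8⟩

theorem FTl.and [Finite V] {K : Kit H} {c : V × V} {S S' : V → V → Prop} (h : FTl K c S)
    (h' : FTl K c S') : FTl K c (fun x y => S x y ∧ S' x y) :=
  FB.and h h'

theorem FTl.comp [Finite V] {K : Kit H} {c : V × V} (hc : H.Adj c.1 c.2) {S S' : V → V → Prop}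
    (h : FTl K c S) (h' : FTl K c S') :
    FTl K c (fun x y => ∃ z, Sim H z c.1 ∧ S x z ∧ S' z y) := by
  refine FB.congr (FB.comp h h') fun a b _ _ => ?_
  constructor
  · rintro ⟨e, he, h1, h2⟩
    exact ⟨e.1, he.2.1, h1, h2⟩
  · rintro ⟨z, hz, h1, h2⟩
    obtain ⟨w, hw, hw'⟩ := StepDef_nbr hz hc
    exact ⟨(z, w), ⟨hw, hz, hw'⟩, h1, h2⟩

theorem ftl_eq [Finite V] {K : Kit H} {P : V → K.W} (hB : Base K P) (hm : Multi H) {c : V × V}
    (hc : H.Adj c.1 c.2) : FTl K c (fun x y => x = y) :=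
  FB.congr (fb_tail hB hm hc hc) fun _ _ _ _ => eq_comm

theorem FTl.pw [Finite V] {K : Kit H} {c : V × V} (hc : H.Adj c.1 c.2) {S : V → V → Prop}
    (hT : FTl K c (fun x y => x = y)) (h : FTl K c S) (k : ℕ) : FTl K c (pw H c.1 S k) := by
  induction k with
  | zero => exact hT
  | succ k ih => exact FTl.comp hc ih h

end Pool.Agent.H24.GF
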