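import Pool.Agent.H24.GD.FRed
import Pool.Agent.H79.Thr.ColK

/-!
# JOB GF-2: hardness from a definable relation between arcs

`hard_of_fdef`. Let `L ∈ NP`, `φ` from `hardk hd hL` (file `Pool.Agent.H79.Thr.ColK`; see `hard_of_wd` in the file
`Pool.Agent.H24.GE.WdH`): the word `x` is in `L` iff the list `φ x` of edges (pairs of elements of `ℕ × V3`) is `d`-colourable.
Let `Rd` be from `fdef_red` (file `Pool.Agent.H24.GD.FRed`, `h = 2`, `α = ℕ × V3` or `(ℕ × V3) × ℕ`), the function is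
`x ↦ Rd ((φ x).map fun e => [e.1, e.2])`; the condition on `E` is trivial as all types are `τ`. If `G` covers `H` there is
`a` with `R ![a u, a v]` (up to the form of the function on `Fin 2`) for all edges, and `u ↦ β (a u)` is a colouring
by `h1`; if `c` is a colouring take `a u = γ (c u)` and `h2`.
-/

namespace Pool.Agent.H24.GF

open Pool.Agent.H24.GC Pool.Agent.H24.GD Pool.Agent.PPS Pool.Agent.H64.Cook Pool.Agent.H79.Thr

variable {V : Type} {H : SimpleGraph V}

/-- the list of the two ends -/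
private def FHard_tup {β : Type} (e : β × β) : List β := [e.1, e.2]

theorem hard_of_fdef [Finite V] [Nonempty V] {K : Kit H}
    (hdeg : ∀ w : K.W, ∃ w', K.gr.Adj w w') {τ : V × V} {R : V × V → V × V → Prop}
    (hR : FDef K (fun _ : Bool => τ) (fun v => R (v false) (v true))) {d : ℕ} (hd : 3 ≤ d)
    (β : V × V → Fin d) (γ : Fin d → V × V) (h1 : ∀ a b, R a b → β a ≠ β b)
    (h2 : ∀ s t, s ≠ t → R (γ s) (γ t)) : HardH H := by
  classical
  have hR2 : FDef K (fun _ : Fin 2 => τ) (fun v => R (v 0) (v 1)) := by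
    have h3 := FDef.comap (tX' := fun _ : Fin 2 => τ) hR (fun b : Bool => if b then 1 else 0)
      (fun _ => ⟨sim_refl H _, sim_refl H _⟩)
    refine h3.congr fun v => ?_
    simp
  intro L hL
  obtain ⟨φ, hφ, hφ'⟩ := hardk hd hL
  obtain ⟨Rd, hRd1, hRd2⟩ := fdef_red hdeg hR2 (ℕ × V3)
  refine ⟨fun x => Rd ((φ x).map FHard_tup), ?_, fun x => ?_⟩
  · rw [mem_FP_iff]
    refine hRd1 _ _ ?_
    refine PT.map' (l := φ) (f := fun v : List Bool × ((ℕ × V3) × (ℕ × V3)) => FHard_tup v.2)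
      hφ ?_
    unfold FHard_tup
    fun_prop
  · obtain ⟨n, G, g1, g2⟩ := hRd2 ((φ x).map FHard_tup)
      (fun _ _ _ _ _ _ _ => ⟨sim_refl H _, sim_refl H _⟩)
    refine ⟨n, G, g1, ?_⟩
    rw [g2, (hφ' x).2]
    constructor
    · rintro ⟨c, hc⟩
      refine ⟨fun u => γ (c u), fun e he => ?_⟩
      obtain ⟨e', he', rfl⟩ := List.mem_map.1 he
      exact h2 _ _ (hc e' he')
    · rintro ⟨a, ha⟩
      refine ⟨fun u => β (a u), fun e he => ?_⟩
      exact h1 _ _ (ha (FHard_tup e) (List.mem_map.2 ⟨e, he, rfl⟩))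

end Pool.Agent.H24.GF
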