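import Pool.Agent.H24.GF.WideM
import Pool.Agent.H24.GF.CaseBM
import Pool.Agent.H24.GF.CaseCM
import Pool.Agent.H24.GC.Final
import Pool.Agent.H24.GE.FinalE

/-!
# JOB GF-8: explicit NP-completeness for connected graphs of minimum degree at least three

`final_hard`: if not `Multi H`: `final_npc` (file `Pool.Agent.H24.GE.FinalE`; `¬ Multi H` gives a vertex `v` with
`Lf H v`, see the proof of `final_csp`). If `Multi H`: (a) `multi_wide`; otherwise all `(nbc H x y).ncard ≤ 2`, and (b) `case_B'`;
otherwise (c): exactly as in the proof of `global_part` (file `Pool.Agent.H24.GC.Final`) with `case_C'` in place of `case_C`.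
Then `npc_of_hard`.
-/

namespace Pool.Agent.H24.GF

open Pool.Agent.H24.GC Pool.Agent.H24.GD Pool.Agent.H24.GE

variable {V : Type} {H : SimpleGraph V}

theorem finalF_multi [Finite V] (hmul : Multi H) (hd3 : ∀ x, 3 ≤ (H.neighborSet x).ncard)
    (hcon : H.Connected)
    (h : (∃ x y, 3 ≤ (nbc H x y).ncard) ∨
      (∃ x y y', H.Adj x y ∧ H.Adj x y' ∧ Sim H y y' ∧ nbc H y x ≠ nbc H y' x) ∨
      (∃ c d x x₁ x₂ x₃ x₄, Lnk H c x x₁ ∧ Lnk H d x₁ x₂ ∧ Lnk H d x x₃ ∧ Lnk H c x₃ x₄ ∧
        x₂ ≠ x₄)) : HardH H := by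
  by_cases ha : ∃ x y, 3 ≤ (nbc H x y).ncard
  · obtain ⟨x, y, hk⟩ := ha
    exact multi_wide hmul hd3 hk
  · push Not at ha
    have h2 : ∀ x y, (nbc H x y).ncard ≤ 2 := fun x y => by
      have := ha x y
      omega
    by_cases hb : ∃ x y y', H.Adj x y ∧ H.Adj x y' ∧ Sim H y y' ∧ nbc H y x ≠ nbc H y' x
    · obtain ⟨x, y, y', hxy, hxy', hyy, hne⟩ := hb
      exact case_B' hmul hd3 hcon h2 hxy hxy' hyy hne
    · have hb' : ∀ x y y', H.Adj x y → H.Adj x y' → Sim H y y' → nbc H y x = nbc H y' x := by
        intro x y y' h1 h2 h3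
        by_contra h4
        exact hb ⟨x, y, y', h1, h2, h3, h4⟩
      rcases h with ⟨x, y, h3⟩ | h | ⟨c, d, x, x₁, x₂, x₃, x₄, l1, l2, l3, l4, hne⟩
      · have := ha x y
        omega
      · exact absurd h hb
      · -- the other element of a set with two elements
        have hpair : ∀ z w y, Lnk H z w y → ∀ u, Sim H u z → H.Adj w u → nbc H u w = {w, y} := by
          intro z w y hl u hu hwu
          obtain ⟨h1, h3, v, h4, h5, h6⟩ := hl
          have e1 : nbc H u w = nbc H v w := hb' w u v hwu h5 (sim_trans hu (sim_symm h4))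
          have e2 : {w, y} ⊆ nbc H v w := by
            intro t ht
            rcases ht with rfl | rfl
            · exact ⟨h5.symm, sim_refl H _⟩
            · exact ⟨h6.symm, sim_symm h3⟩
          rw [e1]
          symm
          apply Set.eq_of_subset_of_ncard_le e2
          rw [Set.ncard_pair h1]
          exact h2 v w
        have hsymm : ∀ z w y, Lnk H z w y → Lnk H z y w := by
          rintro z w y ⟨h1, h3, v, h4, h5, h6⟩
          exact ⟨h1.symm, sim_symm h3, v, h4, h6, h5⟩
        have huniq : ∀ z w y y', Lnk H z w y → Lnk H z w y' → y = y' := by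
          intro z w y y' hl hl'
          obtain ⟨h1, h3, v, h4, h5, h6⟩ := hl
          have e := hpair z w y' hl' v h4 h5
          have : y ∈ nbc H v w := ⟨h6.symm, sim_symm h3⟩
          rw [e] at this
          rcases this with h | h
          · exact absurd h.symm h1
          · exact h
        have hcd : ¬ Sim H c d := by
          intro hcd
          have hch : ∀ w y, Lnk H d w y → Lnk H c w y := by
            rintro w y ⟨h1, h3, v, h4, h5, h6⟩
            exact ⟨h1, h3, v, sim_trans h4 (sim_symm hcd), h5, h6⟩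
          have e1 : x₂ = x := huniq c x₁ x₂ x (hch _ _ l2) (hsymm _ _ _ l1)
          have e2 : x₃ = x₁ := huniq c x x₃ x₁ (hch _ _ l3) l1
          subst e2
          have e3 : x₄ = x := huniq c x₃ x₄ x l4 (hsymm _ _ _ l1)
          exact hne (e1.trans e3.symm)
        let cc : Bool → V := fun e => if e then d else c
        have hyp : HypC H x cc := by
          constructor
          · intro e
            cases e
            · obtain ⟨h1, h3, v, h4, h5, h6⟩ := l1
              exact ⟨v, h4, h5⟩
            · obtain ⟨h1, h3, v, h4, h5, h6⟩ := l3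
              exact ⟨v, h4, h5⟩
          · intro e
            have key : ∀ z y, Lnk H z x y → (nbc H z x).ncard = 2 := by
              intro z y hl
              obtain ⟨h1, h3, v, h4, h5, h6⟩ := hl
              rw [nbc_ncard (sim_symm h4) (sim_refl H x),
                hpair z x y ⟨h1, h3, v, h4, h5, h6⟩ v h4 h5, Set.ncard_pair h1]
            cases e
            · exact key c x₁ l1
            · exact key d x₃ l3
          · exact hb'
        obtain ⟨D, hD⟩ := exists_dihC hyp
        have hi2 : ∀ (w : {w : V // Sim H w x}) (e : Bool) (y : V), Lnk H (cc e) w.1 y →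
            (D.i₂ (w, e)).1.1 = y := by
          intro w e y hl
          obtain ⟨h1, h3, v, h4, h5, h6⟩ := hl
          have e1 := hD.h₂ (w, e) v h4 h5
          have h7 : y ∈ nbc H v x := ⟨h6.symm, sim_trans (sim_symm h3) w.2⟩
          rw [e1] at h7
          rcases h7 with h | h
          · exact absurd h.symm h1
          · exact h.symm
        refine case_C' hmul hd3 hcon h2 hyp hcd hD ⟨x, sim_refl H x⟩ ?_
        intro heq
        apply hne
        have a1 : (D.i₂ (⟨x, sim_refl H x⟩, false)).1.1 = x₁ := hi2 _ false x₁ l1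
        have a3 : (D.i₂ (⟨x, sim_refl H x⟩, true)).1.1 = x₃ := hi2 _ true x₃ l3
        have a2 : (D.i₂ ((D.i₂ (⟨x, sim_refl H x⟩, false)).1, true)).1.1 = x₂ := by
          apply hi2
          rw [a1]
          exact l2
        have a4 : (D.i₂ ((D.i₂ (⟨x, sim_refl H x⟩, true)).1, false)).1.1 = x₄ := by
          apply hi2
          rw [a3]
          exact l4
        rw [← a2, ← a4, heq]

theorem final_hard [Finite V] (h3 : ∀ x, 3 ≤ (H.neighborSet x).ncard) (hcon : H.Connected)
    (h : (∃ x y, 3 ≤ (nbc H x y).ncard) ∨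
      (∃ x y y', H.Adj x y ∧ H.Adj x y' ∧ Sim H y y' ∧ nbc H y x ≠ nbc H y' x) ∨
      (∃ c d x x₁ x₂ x₃ x₄, Lnk H c x x₁ ∧ Lnk H d x₁ x₂ ∧ Lnk H d x x₃ ∧ Lnk H c x₃ x₄ ∧
        x₂ ≠ x₄)) : NPComplete (fun _ G => Covers G H) := by
  by_cases hm : Multi H
  · exact npc_of_hard (finalF_multi hm h3 hcon h)
  · unfold Multi at hm
    push Not at hm
    obtain ⟨v, c, hvc, hv⟩ := hm
    have hLf : Lf H v := fun a b ha hb => sim_trans (hv a ha) (sim_symm (hv b hb))
    exact final_npc hcon h3 ⟨v, hLf⟩

end Pool.Agent.H24.GF
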