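import Pool.Agent.H24.GF.FB
import Pool.Agent.H24.GF.FHard

/-!
# JOB GF-5: rings give NP-hardness (definable version)

`ring_hard'`: the proof of `ring_hard` (file `Pool.Agent.H24.GC.Ring`, with `pw_ring`, `Dih.ring_ne`, `Dih.exists_lab`) with
`hard_of_fdef` in place of `hard_of_def`: `L = n / 2`, the relation between the hub variables `a, b` (type `c`) is: there
are arcs `s, t` of the type `c` with `Cn s.1`, `pw H c.1 S n s.1 a.1`, `F a.1 t.1`, `pw H c.1 S (L - 1) t.1 b.1`.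
Definable by `FTl.pw`, `FDef.comap`, `FDef.and`, `FDef.ex`. `β a = lab a.1`, `γ i` an arc of the type `c` with the tail
`tl (τ ^ i e₀)`, where `e₀` is from `hC2`, `hC1`. If the relation holds: `s.1 = tl e`, `per e = n` (`hC1`), then as in the proof
of `ring_hard` (`hF1`). Conversely for `i ≠ j`: `s.1 = tl e₀`, `t.1 = tl (τ ^ (± L) e')` by `hF2` for `e'` or `i₁ e'`.
-/

namespace Pool.Agent.H24.GF

open Pool.Agent.H24.GC Pool.Agent.H24.GD Pool.Agent.H24.GE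

variable {V : Type} {H : SimpleGraph V}

/-- an arc of type `c` with a given tail -/
private theorem ringm_arc [Finite V] {c : V × V} (hc : H.Adj c.1 c.2) {z : V}
    (hz : Sim H z c.1) : ∃ a : V × V, IsC H c a ∧ a.1 = z := by
  have h1 : c.2 ∈ nbc H c.1 c.2 := ⟨hc, sim_refl H _⟩
  have h2 : (nbc H z c.2).ncard = (nbc H c.1 c.2).ncard := nbc_ncard hz (sim_refl H _)
  have h3 : 0 < (nbc H c.1 c.2).ncard := Set.ncard_pos (Set.toFinite _) |>.2 ⟨_, h1⟩
  rw [← h2, Set.ncard_pos (Set.toFinite _)] at h3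
  obtain ⟨y, hy1, hy2⟩ := h3
  exact ⟨(z, y), ⟨hy1, hz, hy2⟩, rfl⟩

private theorem ringm_pow_add {Ω : Type} (D : Dih Ω V) (s t : ℤ) (a : Ω) :
    (D.tau ^ s) ((D.tau ^ t) a) = (D.tau ^ (s + t)) a := by
  rw [zpow_add, Equiv.Perm.mul_apply]

private theorem ringm_def [Finite V] {K : Kit H} {c : V × V} {S : V → V → Prop}
    (h : FTl K c S) (i j : Bool ⊕ Bool) :
    FDef K (Sum.elim (fun _ : Bool => c) (fun _ : Bool => c))
      (fun v => IsC H c (v i) ∧ IsC H c (v j) ∧ S (v i).1 (v j).1) := by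
  have e2 : ∀ x : Bool ⊕ Bool,
      Sum.elim (fun _ : Bool => c) (fun _ : Bool => c) x = c := by
    intro x
    rcases x with x | x <;> rfl
  have h1 := FDef.comap (tX' := Sum.elim (fun _ : Bool => c) (fun _ : Bool => c)) h
    (fun b : Bool => if b then j else i) (by
      intro b
      have e1 : (if b = true then c else c) = c := by split_ifs <;> rfl
      simp only [e1, e2]
      exact ⟨sim_refl H _, sim_refl H _⟩)
  exact FDef.congr h1 fun v => Iff.rfl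

private theorem ringm_un [Finite V] {K : Kit H} {c : V × V} {Cn : V → Prop}
    (hC : FDef K (fun _ : Unit => c) (fun v => IsC H c (v ()) ∧ Cn (v ()).1))
    (i : Bool ⊕ Bool) :
    FDef K (Sum.elim (fun _ : Bool => c) (fun _ : Bool => c))
      (fun v => IsC H c (v i) ∧ Cn (v i).1) := by
  have e2 : ∀ x : Bool ⊕ Bool,
      Sum.elim (fun _ : Bool => c) (fun _ : Bool => c) x = c := by
    intro x
    rcases x with x | x <;> rfl
  have h1 := FDef.comap (tX' := Sum.elim (fun _ : Bool => c) (fun _ : Bool => c)) hC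
    (fun _ : Unit => i) (by
      intro b
      simp only [e2]
      exact ⟨sim_refl H _, sim_refl H _⟩)
  exact FDef.congr h1 fun v => Iff.rfl

theorem ring_hard' [Finite V] [Nonempty V] {K : Kit H} (hdeg : ∀ w : K.W, ∃ w', K.gr.Adj w w')
    {c : V × V} (hc : H.Adj c.1 c.2) {S : V → V → Prop} (hS : FTl K c S)
    (hT : FTl K c (fun x y => x = y)) {Ω : Type} [Finite Ω] (D : Dih Ω V) {n : ℕ} (hn : 3 ≤ n)
    (hΩ : ∀ a, Sim H (D.tl a) c.1)
    (hstep : ∀ a, D.per a = n → ∀ x', S (D.tl a) x' ↔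
      x' = D.tl a ∨ x' = D.tl (D.tau a) ∨ x' = D.tl (D.tau.symm a))
    {F : V → V → Prop} (hF : FTl K c F)
    (hF1 : ∀ a, D.per a = n → ∀ x', F (D.tl a) x' →
      x' = D.tl ((D.tau ^ ((n / 2 : ℕ) : ℤ)) a) ∨ x' = D.tl ((D.tau ^ (-((n / 2 : ℕ) : ℤ))) a))
    (hF2 : ∀ a, D.per a = n → F (D.tl a) (D.tl ((D.tau ^ ((n / 2 : ℕ) : ℤ)) a)))
    {Cn : V → Prop} (hC : FDef K (fun _ : Unit => c) (fun v => IsC H c (v ()) ∧ Cn (v ()).1))
    (hC1 : ∀ x, Cn x → ∃ a, D.per a = n ∧ x = D.tl a) (hC2 : ∃ x, Sim H x c.1 ∧ Cn x) :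
    HardH H := by
  classical
  obtain ⟨L, hL⟩ : ∃ L : ℕ, L = n / 2 := ⟨_, rfl⟩
  have hL1 : 1 ≤ L := by omega
  obtain ⟨lab, hlab⟩ := D.exists_lab (n := n) (by omega)
  obtain ⟨x₀, hx₀, hCx⟩ := hC2
  obtain ⟨e₀, he₀, hπ⟩ := hC1 x₀ hCx
  have hγ : ∀ i : Fin n, ∃ g : V × V, IsC H c g ∧ g.1 = D.tl ((D.tau ^ ((i : ℕ) : ℤ)) e₀) :=
    fun i => ringm_arc hc (hΩ _)
  choose γ hγ1 hγ2 using hγ
  obtain ⟨s₀, hs₀, hs₀x⟩ := ringm_arc hc hx₀
  have hdef : FDef K (Sum.elim (fun _ : Bool => c) (fun _ : Bool => c))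
      (fun v : Bool ⊕ Bool → V × V =>
        (IsC H c (v (Sum.inr false)) ∧ Cn (v (Sum.inr false)).1) ∧
        (IsC H c (v (Sum.inr false)) ∧ IsC H c (v (Sum.inl false)) ∧
          pw H c.1 S n (v (Sum.inr false)).1 (v (Sum.inl false)).1) ∧
        (IsC H c (v (Sum.inl false)) ∧ IsC H c (v (Sum.inr true)) ∧
          F (v (Sum.inl false)).1 (v (Sum.inr true)).1) ∧
        (IsC H c (v (Sum.inr true)) ∧ IsC H c (v (Sum.inl true)) ∧
          pw H c.1 S (L - 1) (v (Sum.inr true)).1 (v (Sum.inl true)).1)) :=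
    FDef.and (ringm_un hC (Sum.inr false))
      (FDef.and (ringm_def (FTl.pw hc hT hS n) (Sum.inr false) (Sum.inl false))
        (FDef.and (ringm_def hF (Sum.inl false) (Sum.inr true))
          (ringm_def (FTl.pw hc hT hS (L - 1)) (Sum.inr true) (Sum.inl true))))
  have hex := FDef.ex (X := Bool) (X₁ := Bool) (tX := fun _ : Bool => c)
    (t₁ := fun _ : Bool => c) hdef
  have hR : FDef K (fun _ : Bool => c) (fun v : Bool → V × V =>
      (fun a b : V × V => IsC H c a ∧ IsC H c b ∧ ∃ s t : V × V, IsC H c s ∧ IsC H c t ∧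
        Cn s.1 ∧ pw H c.1 S n s.1 a.1 ∧ F a.1 t.1 ∧ pw H c.1 S (L - 1) t.1 b.1)
        (v false) (v true)) := by
    refine FDef.congr hex fun v => ?_
    constructor
    · rintro ⟨u, ⟨h1, h2⟩, ⟨-, h3, h4⟩, ⟨-, h5, h6⟩, -, h7, h8⟩
      exact ⟨h3, h7, u false, u true, h1, h5, h2, h4, h6, h8⟩
    · rintro ⟨h3, h7, s, t, h1, h5, h2, h4, h6, h8⟩
      exact ⟨fun b => if b then t else s, ⟨h1, h2⟩, ⟨h1, h3, h4⟩, ⟨h3, h5, h6⟩, h5, h7, h8⟩
  refine hard_of_fdef (τ := c) (R := fun a b : V × V => IsC H c a ∧ IsC H c b ∧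
    ∃ s t : V × V, IsC H c s ∧ IsC H c t ∧ Cn s.1 ∧ pw H c.1 S n s.1 a.1 ∧ F a.1 t.1 ∧
      pw H c.1 S (L - 1) t.1 b.1) hdeg hR hn (fun a => lab a.1) γ ?_ ?_
  · rintro a b ⟨-, -, s, t, -, -, r0, r1, r2, r3⟩
    obtain ⟨e, he, hfe⟩ := hC1 s.1 r0
    rw [hfe, pw_ring hΩ hstep he] at r1
    obtain ⟨i, -, hi⟩ := r1
    have hpe : D.per ((D.tau ^ i) e) = n := (D.per_pow i e).trans he
    generalize hε : (D.tau ^ i) e = e' at hi hpe
    have hj : ∃ j : ℤ, j ≠ 0 ∧ |j| ≤ 2 * ((L : ℕ) : ℤ) - 1 ∧ b.1 = D.tl ((D.tau ^ j) e') := by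
      rw [hi] at r2
      rcases hF1 e' hpe t.1 r2 with h | h
      · rw [← hL] at h
        rw [h, pw_ring hΩ hstep ((D.per_pow _ e').trans hpe)] at r3
        obtain ⟨k, hk, hb⟩ := r3
        rw [ringm_pow_add] at hb
        rw [abs_le, Nat.cast_sub hL1, Nat.cast_one] at hk
        exact ⟨k + L, by omega, by rw [abs_le]; constructor <;> omega, hb⟩
      · rw [← hL] at h
        rw [h, pw_ring hΩ hstep ((D.per_pow _ e').trans hpe)] at r3
        obtain ⟨k, hk, hb⟩ := r3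
        rw [ringm_pow_add] at hb
        rw [abs_le, Nat.cast_sub hL1, Nat.cast_one] at hk
        exact ⟨k + -L, by omega, by rw [abs_le]; constructor <;> omega, hb⟩
    obtain ⟨j, hj0, hjL, hb⟩ := hj
    have hper3 : 3 ≤ D.per e' := by rw [hpe]; exact hn
    have hne2 := ((D.ring_ne hper3 b.1).1 ⟨j, hj0, by rw [hpe, ← hL]; exact hjL, hb⟩).2
    have h0 : D.tl e' = D.tl ((D.tau ^ (0 : ℤ)) e') := by rw [zpow_zero]; rfl
    intro hβ
    have hβ' : lab a.1 = lab b.1 := hβ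
    rw [hi, hb, h0] at hβ'
    refine hlab e' hpe 0 j ?_ hβ'
    rw [← h0, ← hb]
    exact hne2.symm
  · intro s t hst
    have hpe : D.per ((D.tau ^ ((s : ℕ) : ℤ)) e₀) = n := (D.per_pow _ e₀).trans he₀
    have htne : D.tl ((D.tau ^ ((t : ℕ) : ℤ)) e₀) ≠ D.tl ((D.tau ^ ((s : ℕ) : ℤ)) e₀) := by
      intro h
      rw [D.tl_iff_dvd, he₀] at h
      apply hst
      apply Fin.ext
      have hs := s.2
      have ht := t.2
      have h2 : ((t : ℕ) : ℤ) - ((s : ℕ) : ℤ) = 0 := by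
        apply Int.eq_zero_of_abs_lt_dvd h
        rw [abs_lt]
        constructor <;> omega
      omega
    have htm : ∃ t' : ℤ, D.tl ((D.tau ^ ((t : ℕ) : ℤ)) e₀)
        = D.tl ((D.tau ^ t') ((D.tau ^ ((s : ℕ) : ℤ)) e₀)) := by
      refine ⟨t - s, ?_⟩
      rw [ringm_pow_add, sub_add_cancel]
    have hγt := hγ2 t
    have hγs := hγ2 s
    have hs0 : pw H c.1 S n s₀.1 (γ s).1 := by
      rw [hs₀x, hπ, pw_ring hΩ hstep he₀]
      refine ⟨((s : ℕ) : ℤ), ?_, hγs⟩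
      have hs := s.2
      rw [abs_le]
      constructor <;> omega
    generalize (D.tau ^ ((s : ℕ) : ℤ)) e₀ = e' at hpe htne htm hγs
    have hper3 : 3 ≤ D.per e' := by rw [hpe]; exact hn
    obtain ⟨k, hk0, hkL, hk⟩ := (D.ring_ne hper3 _).2 ⟨htm, htne⟩
    rw [← hγt] at hk
    rw [hpe, ← hL] at hkL
    have main : ∃ z : V, Sim H z c.1 ∧ F (γ s).1 z ∧ pw H c.1 S (L - 1) z (γ t).1 := by
      rw [abs_le] at hkL
      rcases lt_or_gt_of_ne hk0 with hneg | hpos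
      · have hf := hF2 (D.i₁ e') ((D.per_i₁ e').trans hpe)
        have h1 : D.tl (D.i₁ e') = D.tl e' := (D.tl_iff _ _).2 (Or.inr (D.inv₁ e').symm)
        have h2 : D.tl ((D.tau ^ ((n / 2 : ℕ) : ℤ)) (D.i₁ e')) =
            D.tl ((D.tau ^ (-((L : ℕ) : ℤ))) e') := by
          rw [← hL, D.tau_i₁]
          exact (D.tl_iff _ _).2 (Or.inr (D.inv₁ _).symm)
        rw [h1, h2] at hf
        refine ⟨D.tl ((D.tau ^ (-((L : ℕ) : ℤ))) e'), hΩ _, by rw [hγs]; exact hf, ?_⟩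
        rw [pw_ring hΩ hstep ((D.per_pow _ e').trans hpe)]
        refine ⟨k + L, ?_, ?_⟩
        · rw [abs_le, Nat.cast_sub hL1, Nat.cast_one]
          constructor <;> omega
        · rw [ringm_pow_add, hk]
          congr 3
          omega
      · have hf := hF2 e' hpe
        rw [← hL] at hf
        refine ⟨D.tl ((D.tau ^ ((L : ℕ) : ℤ)) e'), hΩ _, by rw [hγs]; exact hf, ?_⟩
        rw [pw_ring hΩ hstep ((D.per_pow _ e').trans hpe)]
        refine ⟨k - L, ?_, ?_⟩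
        · rw [abs_le, Nat.cast_sub hL1, Nat.cast_one]
          constructor <;> omega
        · rw [ringm_pow_add, hk, sub_add_cancel]
    obtain ⟨z, hz, hf1, hf2⟩ := main
    obtain ⟨t₀, ht₀, rfl⟩ := ringm_arc hc hz
    exact ⟨hγ1 s, hγ1 t, s₀, t₀, hs₀, ht₀, by rw [hs₀x]; exact hCx, hs0, hf1, hf2⟩

end Pool.Agent.H24.GF
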