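import Pool.Agent.H24.GE.BaseM
import Pool.Agent.H24.GE.WdH

/-!
# JOB GF-1: a vertex with three neighbours in one class (graphs with bridges)

Project GF (helper24), MP_cb20e7_lc, continues GE. `multi_wide`: as in the proof of `base_multi` (file
`Pool.Agent.H24.GE.BaseM`) take `J`, `Qj`, `Tj`, `κj`, the kit `K₀`, `P` of `exists_kitall H`, `K = liftK K₀ (prodV Tj)`.
`p = (P x, κj)`, `u₁, u₂` neighbours of `p` over two different elements `y₁, y₂` of `nbc H x y` (`lift_adj`),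
`q = (P y, κj)`, `w` the neighbour of `q` over `x`, `z` another neighbour of `q`. Apply `wd_of_dq` (file `WdH`): all
the conditions about `dq` are `dq_lift` (for `ι = Unit`, `ι = Fin 2`, see how `base_multi` uses it; `cut1`, `cut2` are
of the form `hcut`), and then `hard_of_wd` (`lift_univ`, `lift_deg`; `nbc H (K.π p) (K.π u₁) = nbc H x y₁`, which has
as many elements as `nbc H x y`, `nbc_ncard`).
-/

namespace Pool.Agent.H24.GF

open Pool.Agent.H24.GC Pool.Agent.H24.GD Pool.Agent.H24.GE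

variable {V : Type} {H : SimpleGraph V}

theorem multi_wide [Finite V] (hm : Multi H) (h3 : ∀ x, 3 ≤ (H.neighborSet x).ncard) {x y : V}
    (hk : 3 ≤ (nbc H x y).ncard) : HardH H := by
  classical
  let J : Type := {t : V × V × V // H.Adj t.1 t.2.1 ∧ H.Adj t.1 t.2.2 ∧ ¬ Sim H t.2.1 t.2.2}
  have hJf : Finite J := inferInstance
  choose Qj hfin Tj κj hcw using fun j : J => exists_cwalk hm j.2.1 j.2.2.1 j.2.2.2
  have hJ : ∀ x y y', H.Adj x y → H.Adj x y' → ¬ Sim H y y' →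
      ∃ j, CWalk (Tj j) (κj j) x y y' := fun x y y' h1 h2 h3 => ⟨⟨(x, y, y'), h1, h2, h3⟩, hcw _⟩
  obtain ⟨K₀, sd, M, P, -, -, hpi, -, hU⟩ := exists_kitall H
  have hdeg : ∀ w : K₀.W, ∃ w', K₀.gr.Adj w w' := by
    intro w
    obtain ⟨y, hy⟩ : (H.neighborSet (K₀.π w)).Nonempty := by
      apply Set.nonempty_of_ncard_ne_zero
      have := h3 (K₀.π w)
      omega
    obtain ⟨q, hq, -⟩ := lift_adj K₀ hy
    exact ⟨q, hq⟩
  obtain ⟨y₁, hy₁, y₂, hy₂, hne⟩ := (Set.one_lt_ncard (Set.toFinite _)).1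
    (by omega : 1 < (nbc H x y).ncard)
  obtain ⟨z₀, hz₀, hzx⟩ := Set.exists_ne_of_one_lt_ncard
    (by have := h3 y₁; omega : 1 < (H.neighborSet y₁).ncard) x
  have wm_one : ∀ (b u : K₀.W × (∀ j, Qj j)), b.2 = κj → (liftG K₀ (prodV Tj)).Adj b u →
      ∀ f φ, PCov H (liftG K₀ (prodV Tj)) (fun a => K₀.π a.1) (cut1 (b, u)) f φ →
      ∀ x y, H.Adj x y → Sim H x (K₀.π b.1) → dq f φ b (fun _ : Unit => u) x y = 0 := by
    rintro ⟨b, κ⟩ u hb hu f φ h x y hxy hx
    have hb' : κ = κj := hb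
    subst hb'
    refine dq_lift hm h3 Tj κ hJ (ι := Unit) (by simp) (fun _ => hu)
      (fun a b _ => Subsingleton.elim a b) ?_ h hxy hx
    intro a b
    exact ⟨fun h => ⟨(), h⟩, fun ⟨_, h⟩ => h⟩
  have wm_two : ∀ (b u o : K₀.W × (∀ j, Qj j)), b.2 = κj → (liftG K₀ (prodV Tj)).Adj b u →
      (liftG K₀ (prodV Tj)).Adj b o → u ≠ o →
      ∀ f φ, PCov H (liftG K₀ (prodV Tj)) (fun a => K₀.π a.1) (cut2 (b, u) (b, o)) f φ →
      ∀ x y, H.Adj x y → Sim H x (K₀.π b.1) → dq f φ b ![u, o] x y = 0 := by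
    rintro ⟨b, κ⟩ u o hb hu ho huo f φ h x y hxy hx
    have hb' : κ = κj := hb
    subst hb'
    refine dq_lift hm h3 Tj κ hJ (ι := Fin 2) (by simp) ?_ ?_ ?_ h hxy hx
    · intro i
      fin_cases i
      · exact hu
      · exact ho
    · intro a b hab
      fin_cases a <;> fin_cases b
      · rfl
      · exact absurd hab huo
      · exact absurd hab.symm huo
      · rfl
    · intro a b
      constructor
      · rintro (h | h)
        · exact ⟨0, h⟩
        · exact ⟨1, h⟩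
      · rintro ⟨i, h⟩
        fin_cases i
        · exact Or.inl h
        · exact Or.inr h
  let K : Kit H := liftK K₀ (prodV Tj)
  have hKp : ∀ v, K.π (P v, κj) = v := hpi
  obtain ⟨u₁, hu₁, hu₁'⟩ := lift_adj K (p := (P x, κj)) (y := y₁) (by rw [hKp]; exact hy₁.1)
  obtain ⟨u₂, hu₂, hu₂'⟩ := lift_adj K (p := (P x, κj)) (y := y₂) (by rw [hKp]; exact hy₂.1)
  obtain ⟨w, hw, hw'⟩ := lift_adj K (p := (P y₁, κj)) (y := x) (by rw [hKp]; exact hy₁.1.symm)
  obtain ⟨z, hz, hz'⟩ := lift_adj K (p := (P y₁, κj)) (y := z₀) (by rw [hKp]; exact hz₀)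
  have hun : u₁ ≠ u₂ := fun h => hne (by rw [← hu₁', ← hu₂', h])
  have hwn : w ≠ z := fun h => hzx (by rw [← hz', ← hw', h])
  have hWD : WD K (P x, κj) u₁ u₂ (P y₁, κj) w z := by
    refine wd_of_dq hu₁ hu₂ hw hz hun hwn ?_ ?_ ?_ (wm_one _ _ rfl hu₁) (wm_one _ _ rfl hu₂)
      (wm_two _ _ _ rfl hu₁ hu₂ hun) (wm_one _ _ rfl hw) (wm_one _ _ rfl hz)
      (wm_two _ _ _ rfl hw hz hwn)
    · rw [hu₁', hu₂']
      exact sim_trans hy₂.2 (sim_symm hy₁.2)
    · rw [hKp, hu₁']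
      exact sim_refl H _
    · rw [hKp, hw']
      exact sim_refl H _
  refine hard_of_wd hWD (lift_univ (prodV Tj) (hU x) κj) (lift_univ (prodV Tj) (hU y₁) κj)
    (lift_deg (prodV Tj) hdeg) ?_
  have hc : (nbc H (K.π (P x, κj)) (K.π u₁)).ncard = (nbc H x y).ncard := by
    apply nbc_ncard
    · rw [hKp]
      exact sim_refl H _
    · rw [hu₁']
      exact hy₁.2
  rw [hc]
  exact hk

end Pool.Agent.H24.GF
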